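import Pool.Agent.H499Z.SoficFree

set_option autoImplicit false

namespace Pool.Agent.Results.MP_743583_al.FreeProduct

open Pool.Agent.H499Z.SoficAct

universe u v w

/-- If every action `α i` of `G i` on the set `X` is sofic, then the induced action of the free
product of the groups `G i` on `X` is sofic.  No countability assumption is needed. -/
theorem result {ι : Type u} {G : ι → Type v} [∀ i, Group (G i)] {X : Type w}
    (α : ∀ i, G i →* Equiv.Perm X) (hα : ∀ i, IsSofic (α i)) :
    IsSofic (Monoid.CoprodI.lift α : Monoid.CoprodI G →* Equiv.Perm X) :=
  free_product α hα

end Pool.Agent.Results.MP_743583_al.FreeProduct
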